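import Mathlib

/-!
# Clean pairs

`Clean q b c` says that `b` is the first `b' ≥ 1` for which `b' * c` reduced modulo `q` is `< b'`.
-/

namespace H182R2.LInd

/-- `b` is the first `b' ≥ 1` for which the residue of `b' * c` modulo `q` is smaller than `b'`. -/
def Clean (q b c : ℕ) : Prop :=
  1 ≤ c ∧ c < q ∧ (b * c) % q < b ∧ ∀ b', 1 ≤ b' → b' < b → b' ≤ (b' * c) % q

theorem clean_of {q s u e b w c k0 : ℕ} (hq : q.Prime) (hu : 1 ≤ u) (hus : u < s)
    (hcop : Nat.Coprime u s) (hs : s * s ≤ q) (he : 1 ≤ e) (hes : e < s)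
    (hb : s * b = q + u * e) (hw : w + u = s) (hc : u * c + w = k0 * q)
    (hc1 : 1 ≤ c) (hcq : c < q) : b < q ∧ Clean q b c := by
  have hs2 : 2 ≤ s := by omega
  have hue : u * e < s * s := Nat.mul_lt_mul_of_lt_of_le hus hes.le (by omega)
  have hue0 : 0 < u * e := Nat.mul_pos (by omega) (by omega)
  have hbs : s < b := by
    by_contra h
    push Not at h
    have : s * b ≤ s * s := Nat.mul_le_mul_left _ h
    omega
  have hbq : b < q := by
    have h1 : 2 * b ≤ s * b := Nat.mul_le_mul_right _ hs2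
    omega
  have hsq : s < q := by
    have : s * 2 ≤ s * s := Nat.mul_le_mul_left _ hs2
    omega
  obtain ⟨r, hr⟩ : ∃ r, b = r + e := ⟨b - e, by omega⟩
  have hr1 : 1 ≤ r := by omega
  have key : u * r + w * b = q := by
    have h1 : (w + u) * b = q + u * e := by rw [hw]; exact hb
    have h2 : (w + u) * b = w * b + (u * r + u * e) := by rw [hr]; ring
    omega
  have huq : Nat.Coprime u q := by
    rw [Nat.coprime_comm]
    exact (Nat.Prime.coprime_iff_not_dvd hq).2 (Nat.not_dvd_of_pos_of_lt (by omega) (by omega))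
  have hwu : Nat.Coprime u w := by
    have : Nat.Coprime u (w + u) := by rw [hw]; exact hcop
    simpa using this
  have hbc : (b * c) % q = r := by
    have h1 : u * (b * c) + w * b ≡ u * r + w * b [MOD q] := by
      have e1 : u * (b * c) + w * b = (b * k0) * q := by
        calc u * (b * c) + w * b = b * (u * c + w) := by ring
          _ = b * (k0 * q) := by rw [hc]
          _ = _ := by ring
      rw [e1, key]
      unfold Nat.ModEq
      simp
    have h2 : u * (b * c) ≡ u * r [MOD q] := Nat.ModEq.add_right_cancel' _ h1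
    have h3 : b * c ≡ r [MOD q] := by
      apply Nat.ModEq.cancel_left_of_coprime _ h2
      rw [Nat.gcd_comm]; exact huq
    have h4 := h3
    unfold Nat.ModEq at h4
    rw [h4, Nat.mod_eq_of_lt (by omega)]
  refine ⟨hbq, hc1, hcq, by rw [hbc]; omega, ?_⟩
  intro b' hb'1 hb'b
  by_contra hcon
  push Not at hcon
  set y := (b' * c) % q with hy
  have hy0 : y ≠ 0 := by
    intro h0
    have hd : q ∣ b' * c := Nat.dvd_of_mod_eq_zero (by rw [← hy]; exact h0)
    rcases (Nat.Prime.dvd_mul hq).1 hd with h | h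
    · exact Nat.not_dvd_of_pos_of_lt (by omega) (by omega) h
    · exact Nat.not_dvd_of_pos_of_lt (by omega) (by omega) h
  have hdiv : q ∣ u * y + w * b' := by
    have h1 : u * y + w * b' ≡ u * (b' * c) + w * b' [MOD q] := by
      apply Nat.ModEq.add_right
      apply Nat.ModEq.mul_left
      exact Nat.mod_modEq _ _
    have e1 : u * (b' * c) + w * b' = (b' * k0) * q := by
      calc u * (b' * c) + w * b' = b' * (u * c + w) := by ring
        _ = b' * (k0 * q) := by rw [hc]
        _ = _ := by ring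
    rw [e1] at h1
    have h2 : (u * y + w * b') ≡ 0 [MOD q] := h1.trans (by unfold Nat.ModEq; simp)
    exact (Nat.modEq_zero_iff_dvd).1 h2
  have hlt : u * y + w * b' < 2 * q := by
    have h1 : u * y < u * b' := Nat.mul_lt_mul_of_pos_left hcon (by omega)
    have h2 : u * b' + w * b' = s * b' := by rw [← hw]; ring
    have h3 : s * b' ≤ s * b := Nat.mul_le_mul_left _ hb'b.le
    omega
  have hpos : 0 < u * y + w * b' := by
    have : 0 < u * y := Nat.mul_pos (by omega) (by omega)
    omega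
  have heq : u * y + w * b' = q := by
    obtain ⟨k, hk⟩ := hdiv
    have hk1 : k = 1 := by
      rcases Nat.lt_or_ge k 1 with h | h
      · have : k = 0 := by omega
        subst this; simp at hk; omega
      · rcases Nat.lt_or_ge 1 k with h' | h'
        · exfalso
          have : q * 2 ≤ q * k := Nat.mul_le_mul_left _ (by omega)
          omega
        · omega
    rw [hk1] at hk; omega
  -- w * (b - b') = u * (y - r)
  obtain ⟨d, hd⟩ : ∃ d, b = b' + d := ⟨b - b', by omega⟩
  have hd0 : 0 < d := by omega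
  have hry : w * d + u * r = u * y := by
    have h1 : u * r + w * (b' + d) = q := by rw [← hd]; exact key
    have h2 : w * (b' + d) = w * b' + w * d := by ring
    omega
  have hudvd : u ∣ w * d := by
    have h1 : u ∣ w * d + u * r := by rw [hry]; exact Dvd.intro _ rfl
    exact (Nat.dvd_add_left (Dvd.intro _ rfl)).1 h1
  have hud : u ∣ d := Nat.Coprime.dvd_of_dvd_mul_left hwu hudvd
  obtain ⟨t, ht⟩ := hud
  have ht1 : 1 ≤ t := by
    rcases Nat.eq_zero_or_pos t with h | h
    · subst h; simp at ht; omega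
    · exact h
  have hyr : y = r + w * t := by
    have h1 : u * (r + w * t) = u * y := by rw [← hry, ht]; ring
    exact (Nat.eq_of_mul_eq_mul_left (by omega) h1).symm
  have hst : s * t = u * t + w * t := by rw [← hw]; ring
  have hst2 : s * 1 ≤ s * t := Nat.mul_le_mul_left _ ht1
  omega

/-- the set of `b ∈ [1, q-1]` which are clean for some `c`. -/
noncomputable def Bset (q : ℕ) : Finset ℕ := by
  classical
  exact (Finset.range q).filter (fun b => 1 ≤ b ∧ ∃ c, Clean q b c)

theorem mem_Bset {q b : ℕ} : b ∈ Bset q ↔ b < q ∧ 1 ≤ b ∧ ∃ c, Clean q b c := by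
  classical
  unfold Bset
  simp

theorem exists_b {q s u : ℕ} (hq : q.Prime) (hu : 1 ≤ u) (hus : u < s)
    (hcop : Nat.Coprime u s) (hs : s * s ≤ q) :
    ∃ b ∈ Bset q, q < s * b ∧ s * b < q + s * s ∧ u ∣ s * b - q := by
  have hs2 : 2 ≤ s := by omega
  have hsq : s < q := by
    have : s * 2 ≤ s * s := Nat.mul_le_mul_left _ hs2
    omega
  have hs0 : NeZero s := ⟨by omega⟩
  have hq0 : NeZero q := ⟨hq.ne_zero⟩
  -- e
  obtain ⟨e, he1, hes, hed⟩ : ∃ e, 1 ≤ e ∧ e < s ∧ s ∣ q + u * e := by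
    set x : ZMod s := -(q : ZMod s) * (u : ZMod s)⁻¹ with hx
    have hxu : (u : ZMod s) * x = -(q : ZMod s) := by
      rw [hx]
      have := ZMod.coe_mul_inv_eq_one u hcop
      calc (u : ZMod s) * (-(q : ZMod s) * (u : ZMod s)⁻¹)
          = -(q : ZMod s) * ((u : ZMod s) * (u : ZMod s)⁻¹) := by ring
        _ = _ := by rw [this]; ring
    refine ⟨x.val, ?_, ZMod.val_lt x, ?_⟩
    · rcases Nat.eq_zero_or_pos x.val with h | h
      · exfalso
        have hx0 : x = 0 := (ZMod.val_eq_zero x).1 h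
        rw [hx0, mul_zero] at hxu
        have : (q : ZMod s) = 0 := by
          have := neg_eq_zero.1 hxu.symm
          exact this
        rw [ZMod.natCast_eq_zero_iff] at this
        rcases (Nat.dvd_prime hq).1 this with h | h <;> omega
      · exact h
    · rw [← ZMod.natCast_eq_zero_iff]
      push_cast
      rw [ZMod.natCast_val, ZMod.cast_id', id_eq, hxu]
      ring
  obtain ⟨w, hw⟩ : ∃ w, w + u = s := ⟨s - u, by omega⟩
  have huq : Nat.Coprime u q := by
    rw [Nat.coprime_comm]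
    exact (Nat.Prime.coprime_iff_not_dvd hq).2 (Nat.not_dvd_of_pos_of_lt (by omega) (by omega))
  obtain ⟨c, hc1, hcq, hcd⟩ : ∃ c, 1 ≤ c ∧ c < q ∧ q ∣ u * c + w := by
    set x : ZMod q := -(w : ZMod q) * (u : ZMod q)⁻¹ with hx
    have hxu : (u : ZMod q) * x = -(w : ZMod q) := by
      rw [hx]
      have := ZMod.coe_mul_inv_eq_one u huq
      calc (u : ZMod q) * (-(w : ZMod q) * (u : ZMod q)⁻¹)
          = -(w : ZMod q) * ((u : ZMod q) * (u : ZMod q)⁻¹) := by ring
        _ = _ := by rw [this]; ring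
    refine ⟨x.val, ?_, ZMod.val_lt x, ?_⟩
    · rcases Nat.eq_zero_or_pos x.val with h | h
      · exfalso
        have hx0 : x = 0 := (ZMod.val_eq_zero x).1 h
        rw [hx0, mul_zero] at hxu
        have : (w : ZMod q) = 0 := by
          have := neg_eq_zero.1 hxu.symm
          exact this
        rw [ZMod.natCast_eq_zero_iff] at this
        exact Nat.not_dvd_of_pos_of_lt (by omega) (by omega) this
      · exact h
    · rw [← ZMod.natCast_eq_zero_iff]
      push_cast
      rw [ZMod.natCast_val, ZMod.cast_id', id_eq, hxu]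
      ring
  obtain ⟨b, hb⟩ := hed
  obtain ⟨k0, hk0⟩ := hcd
  have hk0' : u * c + w = k0 * q := by rw [hk0]; ring
  obtain ⟨hbq, hcl⟩ := clean_of hq hu hus hcop hs he1 hes hb.symm hw hk0' hc1 hcq
  have hue : u * e < s * s := Nat.mul_lt_mul_of_lt_of_le hus hes.le (by omega)
  have hue0 : 0 < u * e := Nat.mul_pos (by omega) (by omega)
  refine ⟨b, mem_Bset.2 ⟨hbq, ?_, c, hcl⟩, by omega, by omega, ?_⟩
  · rcases Nat.eq_zero_or_pos b with h | h
    · subst h; simp at hb; omega
    · exact h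
  · have : s * b - q = u * e := by omega
    rw [this]; exact Dvd.intro _ rfl

/-- the part of `Bset q` close to `q / s`. -/
noncomputable def Bs (q s : ℕ) : Finset ℕ :=
  (Bset q).filter (fun b => q < s * b ∧ s * b < q + s * s)

/-- primes `u < s`, `u ∤ s`, `s ^ 2 < u ^ 3`. -/
def Us (s : ℕ) : Finset ℕ :=
  (Finset.range s).filter (fun u => u.Prime ∧ ¬ u ∣ s ∧ s ^ 2 < u ^ 3)

theorem card_Us_le {q s : ℕ} (hq : q.Prime) (hs : s * s ≤ q) :
    (Us s).card ≤ 2 * (Bs q s).card := by
  classical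
  have hex : ∀ u ∈ Us s, ∃ b ∈ Bset q, q < s * b ∧ s * b < q + s * s ∧ u ∣ s * b - q := by
    intro u hu
    unfold Us at hu
    rw [Finset.mem_filter, Finset.mem_range] at hu
    obtain ⟨hus, hup, hnd, -⟩ := hu
    exact exists_b hq hup.one_lt.le hus ((Nat.Prime.coprime_iff_not_dvd hup).2 hnd) hs
  choose! g hg1 hg2 hg3 hg4 using hex
  have himg : (Us s).image g ⊆ Bs q s := by
    intro b hb
    rw [Finset.mem_image] at hb
    obtain ⟨u, hu, rfl⟩ := hb
    unfold Bs
    rw [Finset.mem_filter]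
    exact ⟨hg1 u hu, hg2 u hu, hg3 u hu⟩
  refine le_trans (Finset.card_le_mul_card_image (f := g) (Us s) 2 ?_)
    (Nat.mul_le_mul_left _ (Finset.card_le_card himg))
  intro b hb
  by_contra hcon
  push Not at hcon
  rw [Finset.two_lt_card] at hcon
  obtain ⟨u1, h1, u2, h2, u3, h3, h12, h13, h23⟩ := hcon
  rw [Finset.mem_filter] at h1 h2 h3
  have hm : ∀ u, u ∈ Us s ∧ g u = b → u.Prime ∧ s ^ 2 < u ^ 3 ∧ u ∣ s * b - q := by
    intro u ⟨hu, hub⟩
    have h4 := hg4 u hu
    rw [hub] at h4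
    unfold Us at hu
    rw [Finset.mem_filter, Finset.mem_range] at hu
    exact ⟨hu.2.1, hu.2.2.2, h4⟩
  obtain ⟨p1, c1, d1⟩ := hm u1 h1
  obtain ⟨p2, c2, d2⟩ := hm u2 h2
  obtain ⟨p3, c3, d3⟩ := hm u3 h3
  have hlt1 : q < s * b := by have := hg2 u1 h1.1; rw [h1.2] at this; exact this
  have hlt2 : s * b < q + s * s := by have := hg3 u1 h1.1; rw [h1.2] at this; exact this
  have cop12 : Nat.Coprime u1 u2 := (Nat.coprime_primes p1 p2).2 h12
  have cop13 : Nat.Coprime u1 u3 := (Nat.coprime_primes p1 p3).2 h13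
  have cop23 : Nat.Coprime u2 u3 := (Nat.coprime_primes p2 p3).2 h23
  have hd12 : u1 * u2 ∣ s * b - q := Nat.Coprime.mul_dvd_of_dvd_of_dvd cop12 d1 d2
  have hd123 : u1 * u2 * u3 ∣ s * b - q :=
    Nat.Coprime.mul_dvd_of_dvd_of_dvd (Nat.Coprime.mul_left cop13 cop23) hd12 d3
  have hle : u1 * u2 * u3 ≤ s * b - q := Nat.le_of_dvd (by omega) hd123
  have hlt : u1 * u2 * u3 < s ^ 2 := by
    have : s ^ 2 = s * s := by ring
    omega
  have hpow : (u1 * u2 * u3) ^ 3 < (s ^ 2) ^ 3 := Nat.pow_lt_pow_left hlt (by norm_num)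
  have hpow2 : (s ^ 2) ^ 3 ≤ (u1 * u2 * u3) ^ 3 := by
    calc (s ^ 2) ^ 3 = s ^ 2 * s ^ 2 * s ^ 2 := by ring
      _ ≤ u1 ^ 3 * u2 ^ 3 * u3 ^ 3 := by gcongr
      _ = _ := by ring
  omega

theorem Bs_disjoint {q s s' : ℕ} (hs : s ^ 3 ≤ q) (hs' : s' < s) :
    Disjoint (Bs q s) (Bs q s') := by
  rw [Finset.disjoint_left]
  intro b h1 h2
  unfold Bs at h1 h2
  rw [Finset.mem_filter] at h1 h2
  obtain ⟨-, h1a, h1b⟩ := h1
  obtain ⟨-, h2a, h2b⟩ := h2
  -- (s - s') b < s^2 but b > s^2
  have hb : s * s < b ∨ b ≤ s * s := by omega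
  rcases hb with hb | hb
  · have h3 : (s' + 1) * b ≤ s * b := Nat.mul_le_mul_right _ (by omega)
    have h4 : (s' + 1) * b = s' * b + b := by ring
    omega
  · have h5 : s * b ≤ s * (s * s) := Nat.mul_le_mul_left _ hb
    have h6 : s ^ 3 = s * (s * s) := by ring
    omega

theorem sum_Bs_le {q S T : ℕ} (hS : S ^ 3 ≤ q) :
    ∑ s ∈ Finset.Ioc T S, (Bs q s).card ≤ (Bset q).card := by
  classical
  rw [← Finset.card_biUnion]
  · apply Finset.card_le_card
    intro b hb
    rw [Finset.mem_biUnion] at hb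
    obtain ⟨s, -, hb⟩ := hb
    unfold Bs at hb
    exact (Finset.mem_filter.1 hb).1
  · intro s hs s' hs' hne
    rw [Finset.mem_coe, Finset.mem_Ioc] at hs hs'
    show Disjoint (Bs q s) (Bs q s')
    rcases lt_or_gt_of_ne hne with h | h
    · exact (Bs_disjoint (le_trans (Nat.pow_le_pow_left hs'.2 3) hS) h).symm
    · exact Bs_disjoint (le_trans (Nat.pow_le_pow_left hs.2 3) hS) h

end H182R2.LInd
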