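import Mathlib
import Pool.Agent.H182R2.LInd.Comb

/-!
# Characters and the rank argument
-/

namespace H182R2.LInd

open Finset

/-- The algebraic numbers. -/
abbrev Qbar := AlgebraicClosure ℚ

/-- `L(χ, 0) = -(1/q) ∑_{a=1}^{q-1} a χ(a)`. -/
noncomputable def Lzero (q : ℕ) (χ : DirichletCharacter Qbar q) : Qbar :=
  -((1 / (q : Qbar)) * ∑ a ∈ Finset.range q, (a : Qbar) * χ (a : ZMod q))

/-- `∑_{a=1}^{q-1} a χ(a)`. -/
noncomputable def Ssum (q : ℕ) (χ : DirichletCharacter Qbar q) : Qbar :=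
  ∑ a ∈ Finset.range q, (a : Qbar) * χ (a : ZMod q)

theorem sum_inv_mul_Ssum {q : ℕ} [NeZero q] (x : ZMod q) (hx : IsUnit x) :
    ∑ χ : DirichletCharacter Qbar q, χ x⁻¹ * Ssum q χ = (q.totient : Qbar) * (x.val : Qbar) := by
  unfold Ssum
  simp_rw [Finset.mul_sum]
  rw [Finset.sum_comm]
  have h1 : ∀ a ∈ Finset.range q, ∑ χ : DirichletCharacter Qbar q,
      χ x⁻¹ * ((a : Qbar) * χ (a : ZMod q)) =
      if a = x.val then (q.totient : Qbar) * (a : Qbar) else 0 := by
    intro a ha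
    rw [Finset.mem_range] at ha
    have h2 : ∀ χ : DirichletCharacter Qbar q, χ x⁻¹ * ((a : Qbar) * χ (a : ZMod q)) =
        (a : Qbar) * (χ x⁻¹ * χ (a : ZMod q)) := fun χ => by ring
    simp_rw [h2]
    rw [← Finset.mul_sum, DirichletCharacter.sum_char_inv_mul_char_eq Qbar hx]
    by_cases h : a = x.val
    · rw [if_pos h, if_pos]
      · ring
      · rw [h, ZMod.natCast_val, ZMod.cast_id', id_eq]
    · rw [if_neg h, if_neg, mul_zero]
      intro h3
      apply h
      rw [h3, ZMod.val_cast_of_lt ha]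
  rw [Finset.sum_congr rfl h1, Finset.sum_ite_eq' , if_pos (Finset.mem_range.2 (ZMod.val_lt x))]

theorem main_identity {q : ℕ} (hq : q.Prime) {b c : ℕ} (hb : 1 ≤ b) (hbq : b < q)
    (hc : 1 ≤ c) (hcq : c < q) :
    ∑ χ : DirichletCharacter Qbar q, Ssum q χ * χ (c : ZMod q)⁻¹ * ((b : Qbar) - χ (b : ZMod q)⁻¹)
      = ((q - 1 : ℕ) : Qbar) * (q : Qbar) * ((b * c / q : ℕ) : Qbar) := by
  have : Fact q.Prime := ⟨hq⟩
  have : NeZero q := ⟨hq.ne_zero⟩
  have hc0 : (c : ZMod q) ≠ 0 := by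
    intro h
    rw [ZMod.natCast_eq_zero_iff] at h
    exact Nat.not_dvd_of_pos_of_lt (by omega) hcq h
  have hb0 : (b : ZMod q) ≠ 0 := by
    intro h
    rw [ZMod.natCast_eq_zero_iff] at h
    exact Nat.not_dvd_of_pos_of_lt (by omega) hbq h
  have hbc0 : ((b * c : ℕ) : ZMod q) ≠ 0 := by
    push_cast
    exact mul_ne_zero hb0 hc0
  have h1 := sum_inv_mul_Ssum (c : ZMod q) (isUnit_iff_ne_zero.2 hc0)
  have h2 := sum_inv_mul_Ssum ((b * c : ℕ) : ZMod q) (isUnit_iff_ne_zero.2 hbc0)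
  rw [ZMod.val_natCast] at h1 h2
  rw [Nat.mod_eq_of_lt hcq] at h1
  rw [Nat.totient_prime hq] at h1 h2
  have h3 : ∀ χ : DirichletCharacter Qbar q,
      Ssum q χ * χ (c : ZMod q)⁻¹ * ((b : Qbar) - χ (b : ZMod q)⁻¹) =
      (b : Qbar) * (χ (c : ZMod q)⁻¹ * Ssum q χ) - χ ((b * c : ℕ) : ZMod q)⁻¹ * Ssum q χ := by
    intro χ
    push_cast
    rw [mul_inv, map_mul]
    ring
  simp_rw [h3]
  rw [Finset.sum_sub_distrib, ← Finset.mul_sum, h1, h2]
  have h4 : ((b * c : ℕ) : Qbar) = (q : Qbar) * ((b * c / q : ℕ) : Qbar) + ((b * c % q : ℕ) : Qbar) := by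
    rw [← Nat.cast_mul, ← Nat.cast_add, Nat.div_add_mod]
  push_cast at h4
  calc (b : Qbar) * (((q - 1 : ℕ) : Qbar) * (c : Qbar)) - ((q - 1 : ℕ) : Qbar) * ((b * c % q : ℕ) : Qbar)
      = ((q - 1 : ℕ) : Qbar) * ((b : Qbar) * (c : Qbar) - ((b * c % q : ℕ) : Qbar)) := by ring
    _ = ((q - 1 : ℕ) : Qbar) * (q : Qbar) * ((b * c / q : ℕ) : Qbar) := by rw [h4]; ring

/-- `Ssum` vanishes on nontrivial even characters. -/
theorem Ssum_even {q : ℕ} (hq : q.Prime) (χ : DirichletCharacter Qbar q) (h1 : χ ≠ 1)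
    (heven : χ.Even) : Ssum q χ = 0 := by
  have : Fact q.Prime := ⟨hq⟩
  have : NeZero q := ⟨hq.ne_zero⟩
  have hsum : ∑ a ∈ Finset.range q, χ (a : ZMod q) = 0 := by
    have h2 := MulChar.sum_eq_zero_of_ne_one h1
    rw [← h2]
    symm
    apply Finset.sum_bij (fun (a : ZMod q) _ => a.val)
    · intro a _; exact Finset.mem_range.2 (ZMod.val_lt a)
    · intro a _ b _ h; exact ZMod.val_injective q h
    · intro b hb
      refine ⟨(b : ZMod q), Finset.mem_univ _, ZMod.val_cast_of_lt (Finset.mem_range.1 hb)⟩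
    · intro a _; rw [ZMod.natCast_val, ZMod.cast_id', id_eq]
  have hrefl : ∑ a ∈ Finset.range q, (a : Qbar) * χ (a : ZMod q) =
      ∑ a ∈ Finset.range q, ((q - a : ℕ) : Qbar) * χ (a : ZMod q) := by
    have e1 : ∑ a ∈ Finset.range q, (a : Qbar) * χ (a : ZMod q) =
        ∑ a ∈ (Finset.range q).erase 0, (a : Qbar) * χ (a : ZMod q) := by
      rw [← Finset.add_sum_erase _ _ (Finset.mem_range.2 hq.pos)]
      simp
    have e2 : ∑ a ∈ Finset.range q, ((q - a : ℕ) : Qbar) * χ (a : ZMod q) =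
        ∑ a ∈ (Finset.range q).erase 0, ((q - a : ℕ) : Qbar) * χ (a : ZMod q) := by
      rw [← Finset.add_sum_erase _ _ (Finset.mem_range.2 hq.pos)]
      have : χ ((0 : ℕ) : ZMod q) = 0 := by
        push_cast
        exact MulChar.map_zero χ
      rw [this]; simp
    rw [e1, e2]
    apply Finset.sum_bij (fun a _ => q - a)
    · intro a ha
      rw [Finset.mem_erase, Finset.mem_range] at ha ⊢
      omega
    · intro a ha b hb h
      rw [Finset.mem_erase, Finset.mem_range] at ha hb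
      omega
    · intro b hb
      rw [Finset.mem_erase, Finset.mem_range] at hb
      refine ⟨q - b, ?_, ?_⟩
      · rw [Finset.mem_erase, Finset.mem_range]; omega
      · omega
    · intro a ha
      rw [Finset.mem_erase, Finset.mem_range] at ha
      have e3 : q - (q - a) = a := by omega
      rw [e3]
      congr 1
      have e4 : ((q - a : ℕ) : ZMod q) = -(a : ZMod q) := by
        rw [Nat.cast_sub ha.2.le]; simp
      rw [e4]
      exact (DirichletCharacter.Even.eval_neg χ _ heven).symm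
  have h2 : Ssum q χ + Ssum q χ = 0 := by
    have : Ssum q χ + Ssum q χ = ∑ a ∈ Finset.range q, (q : Qbar) * χ (a : ZMod q) := by
      conv_lhs => rw [show Ssum q χ = ∑ a ∈ Finset.range q, (a : Qbar) * χ (a : ZMod q) from rfl]
      nth_rewrite 2 [hrefl]
      rw [← Finset.sum_add_distrib]
      apply Finset.sum_congr rfl
      intro a ha
      rw [Finset.mem_range] at ha
      rw [Nat.cast_sub ha.le]
      ring
    rw [this, ← Finset.mul_sum, hsum, mul_zero]
  have h3 : (2 : Qbar) * Ssum q χ = 0 := by rw [two_mul]; exact h2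
  rcases mul_eq_zero.1 h3 with h | h
  · norm_num at h
  · exact h

section norms

variable {K : Type*} [NormedField K] [IsUltrametricDist K] (ι : Qbar →+* K)

omit [IsUltrametricDist K] in
theorem norm_char_le {q : ℕ} [NeZero q] (χ : DirichletCharacter Qbar q) (a : ZMod q) :
    ‖ι (χ a)‖ ≤ 1 := by
  have h := DirichletCharacter.norm_le_one (MulChar.ringHomComp χ ι) a
  exact h

theorem norm_natCast_le (n : ℕ) : ‖(n : K)‖ ≤ 1 := IsUltrametricDist.norm_natCast_le_one K n

theorem norm_Ssum_le {q : ℕ} [NeZero q] (χ : DirichletCharacter Qbar q) :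
    ‖ι (Ssum q χ)‖ ≤ 1 := by
  unfold Ssum
  rw [map_sum]
  apply IsUltrametricDist.norm_sum_le_of_forall_le_of_nonneg (by norm_num)
  intro a _
  rw [map_mul, map_natCast, norm_mul]
  exact mul_le_one₀ (norm_natCast_le a) (norm_nonneg _) (norm_char_le ι χ _)

omit [IsUltrametricDist K] in
theorem norm_Ssum_eq {q : ℕ} (hq : q ≠ 0) (h1 : ‖(q : K)‖ = 1) (χ : DirichletCharacter Qbar q) :
    ‖ι (Ssum q χ)‖ = ‖ι (Lzero q χ)‖ := by
  have hq0 : (q : Qbar) ≠ 0 := by exact_mod_cast hq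
  have h : Ssum q χ = -((q : Qbar) * Lzero q χ) := by
    unfold Ssum Lzero
    field_simp
  rw [h, map_neg, norm_neg, map_mul, map_natCast, norm_mul, h1, one_mul]

theorem norm_sum_lt {α : Type*} (s : Finset α) (f : α → K) (m : ℝ) (hm : 0 < m)
    (h : ∀ i ∈ s, ‖f i‖ < m) : ‖∑ i ∈ s, f i‖ < m := by
  apply Finset.sum_induction f (fun x => ‖x‖ < m)
  · intro a b ha hb
    exact lt_of_le_of_lt (IsUltrametricDist.norm_add_le_max a b) (max_lt ha hb)
  · simpa using hm
  · exact h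

omit [IsUltrametricDist K] in
theorem div_eq_aux {q k r n : ℕ} (hr : r < q) (h : n = q * k + r) : n / q = k := by
  rw [h, Nat.mul_add_div (by omega), Nat.div_eq_of_lt hr, add_zero]

theorem div_eq_of_le_mod {q b c : ℕ} (hq : 0 < q) (hc : 1 ≤ c) (h : b ≤ (b * c) % q) :
    b * c / q = b * (c - 1) / q := by
  obtain ⟨d, rfl⟩ : ∃ d, c = d + 1 := ⟨c - 1, by omega⟩
  rw [Nat.add_sub_cancel]
  have h1 := Nat.div_add_mod (b * (d + 1)) q
  have h3 := Nat.mod_lt (b * (d + 1)) hq
  symm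
  apply div_eq_aux (r := b * (d + 1) % q - b) (by omega)
  have h2 : b * (d + 1) = b * d + b := by ring
  omega

theorem div_eq_of_mod_lt {q b c : ℕ} (hc : 1 ≤ c) (hbq : b < q) (h : (b * c) % q < b) :
    b * c / q = b * (c - 1) / q + 1 := by
  have hq : 0 < q := by omega
  obtain ⟨d, rfl⟩ : ∃ d, c = d + 1 := ⟨c - 1, by omega⟩
  rw [Nat.add_sub_cancel]
  have h1 := Nat.div_add_mod (b * (d + 1)) q
  have h2 : b * (d + 1) = b * d + b := by ring
  generalize hk : b * (d + 1) / q = k at *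
  generalize hr : b * (d + 1) % q = r at *
  have hk1 : 1 ≤ k := by
    by_contra hcon
    have h0 : k = 0 := by omega
    subst h0
    rw [mul_zero, zero_add] at h1
    omega
  obtain ⟨k', hk'⟩ : ∃ k', k = k' + 1 := ⟨k - 1, by omega⟩
  subst hk'
  have h4 : b * d / q = k' := by
    apply div_eq_aux (r := q + r - b) (by omega)
    have h3 : q * (k' + 1) = q * k' + q := by ring
    omega
  rw [h4]

theorem norm_sub_le_max' (x y : K) : ‖x - y‖ ≤ max ‖x‖ ‖y‖ := by
  rw [sub_eq_add_neg]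
  refine le_trans (IsUltrametricDist.norm_add_le_max _ _) ?_
  rw [norm_neg]

theorem card_Bset_le {q : ℕ} (hq : q.Prime) (h1 : ‖(q : K)‖ = 1)
    (h2 : ‖((q - 1 : ℕ) : K)‖ = 1) :
    (Bset q).card ≤
      Nat.card {χ : DirichletCharacter Qbar q // χ.Odd ∧ ‖ι (Lzero q χ)‖ = 1} + 1 := by
  classical
  have : Fact q.Prime := ⟨hq⟩
  have : NeZero q := ⟨hq.ne_zero⟩
  set X : Finset (DirichletCharacter Qbar q) :=
    Finset.univ.filter (fun χ => χ.Odd ∧ ‖ι (Lzero q χ)‖ = 1) with hX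
  have hXcard : Nat.card {χ : DirichletCharacter Qbar q // χ.Odd ∧ ‖ι (Lzero q χ)‖ = 1} =
      X.card := by
    rw [Nat.card_eq_fintype_card, Fintype.card_subtype]
  rw [hXcard]
  set Y : Finset (DirichletCharacter Qbar q) := insert 1 X with hY
  have hYcard : Y.card ≤ X.card + 1 := Finset.card_insert_le _ _
  refine le_trans ?_ hYcard
  by_contra hcon
  push Not at hcon
  -- linear algebra
  let A : Matrix Y (Bset q) K := fun χ b => ((b : ℕ) : K) - ι (χ.1 ((b : ℕ) : ZMod q)⁻¹)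
  have hker : LinearMap.ker A.mulVecLin ≠ ⊥ := by
    apply LinearMap.ker_ne_bot_of_finrank_lt
    rw [Module.finrank_fintype_fun_eq_card, Module.finrank_fintype_fun_eq_card,
      Fintype.card_coe, Fintype.card_coe]
    exact hcon
  rw [Submodule.ne_bot_iff] at hker
  obtain ⟨x, hx, hx0⟩ := hker
  rw [LinearMap.mem_ker, Matrix.mulVecLin_apply] at hx
  set y : ℕ → K := fun b => if h : b ∈ Bset q then x ⟨b, h⟩ else 0 with hy
  have hyrel : ∀ χ ∈ Y, ∑ b ∈ Bset q, y b * ((b : K) - ι (χ ((b : ZMod q)⁻¹))) = 0 := by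
    intro χ hχ
    have h3 := congrFun hx ⟨χ, hχ⟩
    rw [Matrix.mulVec, dotProduct] at h3
    rw [← Finset.sum_coe_sort]
    rw [Pi.zero_apply] at h3
    rw [← h3]
    apply Finset.sum_congr rfl
    intro b _
    have : y (b : ℕ) = x b := by
      rw [hy]
      simp
    rw [this, mul_comm]
  have hyne : ∃ b ∈ Bset q, y b ≠ 0 := by
    by_contra h
    push Not at h
    apply hx0
    funext b
    have := h b b.2
    rw [hy] at this
    simpa using this
  obtain ⟨b1, hb1, hb1y⟩ := hyne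
  obtain ⟨b0, hb0, hb0max⟩ := Finset.exists_max_image (Bset q) (fun b => ‖y b‖) ⟨b1, hb1⟩
  set m : ℝ := ‖y b0‖ with hm
  have hmpos : 0 < m := lt_of_lt_of_le (norm_pos_iff.2 hb1y) (hb0max b1 hb1)
  set Z := (Bset q).filter (fun b => ‖y b‖ = m) with hZ
  have hZne : Z.Nonempty := ⟨b0, by rw [hZ, Finset.mem_filter]; exact ⟨hb0, rfl⟩⟩
  set bs := Z.max' hZne with hbs
  have hbsZ : bs ∈ Z := Finset.max'_mem _ _
  have hbsZ' := hbsZ
  rw [hZ, Finset.mem_filter] at hbsZ'
  obtain ⟨hbsB, hbsm⟩ := hbsZ'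
  -- T(c)
  set T : ℕ → K := fun c => ∑ b ∈ Bset q, y b * ((b * c / q : ℕ) : K) with hT
  have hnormK : ∀ b, ∀ χ : DirichletCharacter Qbar q, ‖((b : ℕ) : K) - ι (χ ((b : ZMod q)⁻¹))‖ ≤ 1 := by
    intro b χ
    refine le_trans (norm_sub_le_max' _ _) ?_
    exact max_le (norm_natCast_le b) (norm_char_le ι χ _)
  have hTlt : ∀ c, c < q → ‖T c‖ < m := by
    intro c hcq
    rcases Nat.eq_zero_or_pos c with hc0 | hcpos
    · have : T c = 0 := by
        rw [hT]
        subst hc0
        simp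
      rw [this, norm_zero]
      exact hmpos
    · have hid : ((q - 1 : ℕ) : K) * (q : K) * T c =
          ∑ χ : DirichletCharacter Qbar q, ι (Ssum q χ) * ι (χ ((c : ZMod q)⁻¹)) *
            ∑ b ∈ Bset q, y b * ((b : K) - ι (χ ((b : ZMod q)⁻¹))) := by
        rw [hT]
        simp only [Finset.mul_sum]
        rw [Finset.sum_comm]
        apply Finset.sum_congr rfl
        intro b hb
        rw [mem_Bset] at hb
        have h3 := congrArg ι (main_identity hq hb.2.1 hb.1 hcpos hcq)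
        rw [map_sum, map_mul, map_mul, map_natCast, map_natCast, map_natCast] at h3
        calc ((q - 1 : ℕ) : K) * (q : K) * (y b * ((b * c / q : ℕ) : K))
            = y b * (((q - 1 : ℕ) : K) * (q : K) * ((b * c / q : ℕ) : K)) := by ring
          _ = y b * ∑ χ : DirichletCharacter Qbar q, ι (Ssum q χ * χ (c : ZMod q)⁻¹ *
              ((b : Qbar) - χ (b : ZMod q)⁻¹)) := by rw [h3]
          _ = _ := by
            rw [Finset.mul_sum]
            apply Finset.sum_congr rfl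
            intro χ _
            rw [map_mul, map_mul, map_sub, map_natCast]
            ring
      have h4 : ‖((q - 1 : ℕ) : K) * (q : K) * T c‖ < m := by
        rw [hid]
        apply norm_sum_lt _ _ _ hmpos
        intro χ _
        by_cases hχ : χ ∈ Y
        · rw [hyrel χ hχ, mul_zero, norm_zero]
          exact hmpos
        · have hS : ‖ι (Ssum q χ)‖ < 1 := by
            rw [hY, Finset.mem_insert, not_or] at hχ
            obtain ⟨hχ1, hχX⟩ := hχ
            rcases DirichletCharacter.even_or_odd χ with he | ho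
            · rw [Ssum_even hq χ hχ1 he, map_zero, norm_zero]
              norm_num
            · refine lt_of_le_of_ne (norm_Ssum_le ι χ) ?_
              intro h5
              apply hχX
              rw [hX, Finset.mem_filter]
              refine ⟨Finset.mem_univ _, ho, ?_⟩
              rw [← norm_Ssum_eq ι hq.ne_zero h1]
              exact h5
          have hsum : ‖∑ b ∈ Bset q, y b * ((b : K) - ι (χ ((b : ZMod q)⁻¹)))‖ ≤ m := by
            apply IsUltrametricDist.norm_sum_le_of_forall_le_of_nonneg hmpos.le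
            intro b hb
            rw [norm_mul]
            calc ‖y b‖ * ‖(b : K) - ι (χ ((b : ZMod q)⁻¹))‖ ≤ m * 1 :=
                  mul_le_mul (hb0max b hb) (hnormK b χ) (norm_nonneg _) hmpos.le
              _ = m := mul_one m
          rw [norm_mul, norm_mul]
          have h6 : ‖ι (Ssum q χ)‖ * ‖ι (χ ((c : ZMod q)⁻¹))‖ < 1 :=
            lt_of_le_of_lt (mul_le_of_le_one_right (norm_nonneg _) (norm_char_le ι χ _)) hS
          calc ‖ι (Ssum q χ)‖ * ‖ι (χ ((c : ZMod q)⁻¹))‖ *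
                ‖∑ b ∈ Bset q, y b * ((b : K) - ι (χ ((b : ZMod q)⁻¹)))‖
              ≤ ‖ι (Ssum q χ)‖ * ‖ι (χ ((c : ZMod q)⁻¹))‖ * m := by gcongr
            _ < 1 * m := by
              apply mul_lt_mul_of_pos_right h6 hmpos
            _ = m := one_mul m
      rw [norm_mul, norm_mul, h1, h2, one_mul, one_mul] at h4
      exact h4
  -- the clean row
  obtain ⟨hbsq, hbs1, cs, hcs⟩ := mem_Bset.1 hbsB
  obtain ⟨hcs1, hcsq, hcslt, hcsle⟩ := hcs
  have hdiff : T cs - T (cs - 1) = ∑ b ∈ Bset q, y b *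
      (((b * cs / q : ℕ) : K) - ((b * (cs - 1) / q : ℕ) : K)) := by
    rw [hT]
    simp only
    rw [← Finset.sum_sub_distrib]
    apply Finset.sum_congr rfl
    intro b _
    ring
  have hdlt : ‖T cs - T (cs - 1)‖ < m :=
    lt_of_le_of_lt (norm_sub_le_max' _ _)
      (max_lt (hTlt cs hcsq) (hTlt (cs - 1) (by omega)))
  rw [hdiff, ← Finset.add_sum_erase _ _ hbsB] at hdlt
  have hbsD : (((bs * cs / q : ℕ) : K) - ((bs * (cs - 1) / q : ℕ) : K)) = 1 := by
    rw [div_eq_of_mod_lt hcs1 hbsq hcslt]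
    push_cast
    ring
  rw [hbsD, mul_one] at hdlt
  have hrest : ‖∑ b ∈ (Bset q).erase bs, y b *
      (((b * cs / q : ℕ) : K) - ((b * (cs - 1) / q : ℕ) : K))‖ < m := by
    apply norm_sum_lt _ _ _ hmpos
    intro b hb
    rw [Finset.mem_erase] at hb
    obtain ⟨hbne, hbB⟩ := hb
    obtain ⟨hbq, hb1', -⟩ := mem_Bset.1 hbB
    rcases lt_or_gt_of_ne hbne with hlt | hgt
    · rw [div_eq_of_le_mod hq.pos hcs1 (hcsle b hb1' hlt), sub_self, mul_zero, norm_zero]
      exact hmpos
    · have hyb : ‖y b‖ < m := by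
        refine lt_of_le_of_ne (hb0max b hbB) ?_
        intro h5
        have : b ∈ Z := by rw [hZ, Finset.mem_filter]; exact ⟨hbB, h5⟩
        have := Finset.le_max' Z b this
        omega
      rw [norm_mul]
      have : ‖((b * cs / q : ℕ) : K) - ((b * (cs - 1) / q : ℕ) : K)‖ ≤ 1 := by
        refine le_trans (norm_sub_le_max' _ _) ?_
        exact max_le (norm_natCast_le _) (norm_natCast_le _)
      exact lt_of_le_of_lt (mul_le_of_le_one_right (norm_nonneg _) this) hyb
  have hfin : ‖y bs‖ < m := by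
    have h7 : y bs = (y bs + ∑ b ∈ (Bset q).erase bs, y b *
      (((b * cs / q : ℕ) : K) - ((b * (cs - 1) / q : ℕ) : K))) - ∑ b ∈ (Bset q).erase bs, y b *
      (((b * cs / q : ℕ) : K) - ((b * (cs - 1) / q : ℕ) : K)) := by ring
    rw [h7]
    exact lt_of_le_of_lt (norm_sub_le_max' _ _) (max_lt hdlt hrest)
  rw [hbsm] at hfin
  exact lt_irrefl _ hfin

end norms

end H182R2.LInd
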