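import Mathlib
import Pool.Agent.H182R2.LInd.Comb

/-!
# Counting clean `b`
-/

namespace H182R2.LInd

open Real Filter

theorem card_primes_le (s : ℕ) (hs : 2 ≤ s) :
    (Nat.primeCounting s : ℝ) ≤ (Us s).card + (s : ℝ) ^ ((2 : ℝ) / 3) + 3 := by
  classical
  set A := (Finset.range s).filter (fun u => u ^ 3 ≤ s ^ 2) with hA
  set B := (Finset.range s).filter (fun u => u.Prime ∧ u ∣ s ∧ s ^ 2 < u ^ 3) with hB
  have h1 : (Finset.range s).filter Nat.Prime ⊆ Us s ∪ A ∪ B := by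
    intro u hu
    rw [Finset.mem_filter, Finset.mem_range] at hu
    unfold Us
    simp only [Finset.mem_union, Finset.mem_filter, Finset.mem_range, hA, hB]
    by_cases h3 : u ^ 3 ≤ s ^ 2
    · exact Or.inl (Or.inr ⟨hu.1, h3⟩)
    · push Not at h3
      by_cases h4 : u ∣ s
      · exact Or.inr ⟨hu.1, hu.2, h4, h3⟩
      · exact Or.inl (Or.inl ⟨hu.1, hu.2, h4, h3⟩)
  have hAc : (A.card : ℝ) ≤ (s : ℝ) ^ ((2 : ℝ) / 3) + 1 := by
    have h2 : A ⊆ Finset.range (⌊(s : ℝ) ^ ((2 : ℝ) / 3)⌋₊ + 1) := by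
      intro u hu
      rw [hA, Finset.mem_filter] at hu
      rw [Finset.mem_range, Nat.lt_succ_iff]
      apply Nat.le_floor
      have h3 : (u : ℝ) ^ 3 ≤ (s : ℝ) ^ 2 := by exact_mod_cast hu.2
      have h4 : ((s : ℝ) ^ ((2 : ℝ) / 3)) ^ 3 = (s : ℝ) ^ 2 := by
        rw [← Real.rpow_natCast, ← Real.rpow_mul (by positivity), ← Real.rpow_natCast]
        norm_num
      rw [← h4] at h3
      exact le_of_pow_le_pow_left₀ (by norm_num) (by positivity) h3
    have h3 := Finset.card_le_card h2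
    rw [Finset.card_range] at h3
    calc (A.card : ℝ) ≤ ((⌊(s : ℝ) ^ ((2 : ℝ) / 3)⌋₊ + 1 : ℕ) : ℝ) := by exact_mod_cast h3
      _ = (⌊(s : ℝ) ^ ((2 : ℝ) / 3)⌋₊ : ℝ) + 1 := by push_cast; ring
      _ ≤ _ := by
        have := Nat.floor_le (show 0 ≤ (s : ℝ) ^ ((2 : ℝ) / 3) by positivity)
        linarith
  have hBc : B.card ≤ 1 := by
    rw [Finset.card_le_one]
    intro u hu v hv
    rw [hB, Finset.mem_filter] at hu hv
    obtain ⟨-, pu, du, cu⟩ := hu
    obtain ⟨-, pv, dv, cv⟩ := hv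
    by_contra hne
    have cop : Nat.Coprime u v := (Nat.coprime_primes pu pv).2 hne
    have hd : u * v ∣ s := Nat.Coprime.mul_dvd_of_dvd_of_dvd cop du dv
    have hle : u * v ≤ s := Nat.le_of_dvd (by omega) hd
    have h1 : (u * v) ^ 3 ≤ s ^ 3 := Nat.pow_le_pow_left hle 3
    have h2 : s ^ 2 * s ^ 2 < u ^ 3 * v ^ 3 := by
      have hv0 : 0 < v ^ 3 := by have := pv.pos; positivity
      exact Nat.mul_lt_mul_of_lt_of_le cu cv.le hv0
    have h3 : (u * v) ^ 3 = u ^ 3 * v ^ 3 := by ring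
    have h4 : s ^ 3 * 1 ≤ s ^ 3 * s := Nat.mul_le_mul_left _ (by omega)
    have h5 : s ^ 2 * s ^ 2 = s ^ 3 * s := by ring
    omega
  have h5 : ((Finset.range s).filter Nat.Prime).card ≤ (Us s).card + A.card + B.card :=
    le_trans (Finset.card_le_card h1)
      (le_trans (Finset.card_union_le _ _) (Nat.add_le_add_right (Finset.card_union_le _ _) _))
  have h6 : Nat.primeCounting s ≤ ((Finset.range s).filter Nat.Prime).card + 1 := by
    have h7 : ((Finset.range s).filter Nat.Prime).card = Nat.count Nat.Prime s := by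
      rw [Nat.count_eq_card_filter_range]
    unfold Nat.primeCounting Nat.primeCounting'
    rw [Nat.count_succ, h7]
    split_ifs <;> omega
  have h7 : Nat.primeCounting s ≤ (Us s).card + A.card + 2 := by omega
  have h8 : (Nat.primeCounting s : ℝ) ≤ (Us s).card + A.card + 2 := by exact_mod_cast h7
  linarith

theorem card_Us_ge : ∃ s₀ : ℕ, 2 ≤ s₀ ∧ ∀ s : ℕ, s₀ ≤ s →
    (s : ℝ) / (2 * log s) ≤ (Us s).card := by
  have h1 : ∀ᶠ x : ℝ in atTop, log x ≤ (1 / 20) * x ^ ((1 : ℝ) / 3) := by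
    have := (isLittleO_log_rpow_atTop (r := 1 / 3) (by norm_num)).bound
      (show (0 : ℝ) < 1 / 20 by norm_num)
    filter_upwards [this, eventually_ge_atTop (1 : ℝ)] with x hx hx1
    rw [Real.norm_of_nonneg (Real.log_nonneg hx1), Real.norm_of_nonneg (by positivity)] at hx
    exact hx
  rw [eventually_atTop] at h1
  obtain ⟨x0, hx0⟩ := h1
  refine ⟨max ⌈x0⌉₊ 8, by omega, ?_⟩
  intro s hs
  have hs8 : 8 ≤ s := le_trans (le_max_right _ _) hs
  have hsx : x0 ≤ (s : ℝ) := le_trans (Nat.le_ceil _) (by exact_mod_cast le_trans (le_max_left _ _) hs)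
  have hlog := hx0 s hsx
  have hs8' : (8 : ℝ) ≤ s := by exact_mod_cast hs8
  set y : ℝ := (s : ℝ) ^ ((1 : ℝ) / 3) with hy
  have hy3 : y ^ 3 = s := by
    rw [hy, ← Real.rpow_natCast, ← Real.rpow_mul (by positivity)]
    norm_num
  have hy2 : (s : ℝ) ^ ((2 : ℝ) / 3) = y ^ 2 := by
    rw [hy, ← Real.rpow_natCast, ← Real.rpow_mul (by positivity)]
    norm_num
  have hypos : 0 < y := by rw [hy]; positivity
  have hyge : 2 ≤ y := by
    by_contra h
    push Not at h
    have : y ^ 3 < 2 ^ 3 := by gcongr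
    rw [hy3] at this
    norm_num at this
    linarith
  have hlogpos : 0 < log s := Real.log_pos (by linarith)
  have hpi := Chebyshev.pi_ge s
  have hpc := card_primes_le s (by omega)
  rw [hy2] at hpc
  have hlog1 : log ((s : ℝ) + 1) ≤ 2 * log s := by
    have : log ((s : ℝ) + 1) ≤ log ((s : ℝ) ^ 2) := by
      apply Real.log_le_log (by positivity)
      nlinarith
    rw [Real.log_pow] at this
    push_cast at this
    exact this
  have hl2 : (0.69 : ℝ) < log 2 := by have := Real.log_two_gt_d9; linarith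
  have hmain : (s : ℝ) / (2 * log s) ≤ (s * log 2 - log (s + 1)) / log s - (y ^ 2 + 3) := by
    rw [le_sub_iff_add_le, le_div_iff₀ hlogpos]
    have e1 : ((s : ℝ) / (2 * log s) + (y ^ 2 + 3)) * log s = s / 2 + (y ^ 2 + 3) * log s := by
      field_simp
    rw [e1]
    have e2 : (y ^ 2 + 3) * log s ≤ (y ^ 2 + 3) * (1 / 20 * y) := by gcongr
    have e3 : (s : ℝ) * 0.69 ≤ s * log 2 := by gcongr
    have e4 : log ((s : ℝ) + 1) ≤ 2 * (1 / 20 * y) := by linarith
    rw [← hy3] at e3 ⊢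
    rw [← hy3] at e2 e4
    have e5 : y * 4 ≤ y ^ 3 := by nlinarith [mul_le_mul hyge hyge (by norm_num) (by linarith)]
    nlinarith
  linarith

theorem card_Bset_ge : ∃ q₀ : ℕ, ∀ q : ℕ, q₀ ≤ q → q.Prime →
    (3 / 20 : ℝ) * ((q : ℝ) ^ ((2 : ℝ) / 3) / log q) ≤ (Bset q).card := by
  obtain ⟨s₀, hs₀2, hs₀⟩ := card_Us_ge
  refine ⟨(2 * s₀ + 10) ^ 3, ?_⟩
  intro q hq hprime
  set y : ℝ := (q : ℝ) ^ ((1 : ℝ) / 3) with hy
  have hq1 : 1 ≤ q := hprime.one_lt.le
  have hy3 : y ^ 3 = q := by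
    rw [hy, ← Real.rpow_natCast, ← Real.rpow_mul (by positivity)]
    norm_num
  have hy2 : (q : ℝ) ^ ((2 : ℝ) / 3) = y ^ 2 := by
    rw [hy, ← Real.rpow_natCast, ← Real.rpow_mul (by positivity)]
    norm_num
  have hypos : 0 < y := by
    rw [hy]
    have : (0 : ℝ) < q := by exact_mod_cast hq1
    positivity
  have hyge : (2 * s₀ + 10 : ℝ) ≤ y := by
    by_contra h
    push Not at h
    have h1 : y ^ 3 < (2 * s₀ + 10 : ℝ) ^ 3 := by gcongr
    rw [hy3] at h1
    have h2 : ((2 * s₀ + 10 : ℕ) : ℝ) ^ 3 ≤ q := by exact_mod_cast hq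
    push_cast at h2
    linarith
  set S : ℕ := ⌊y⌋₊ with hS
  have hSy : (S : ℝ) ≤ y := Nat.floor_le hypos.le
  have hSy1 : y < S + 1 := Nat.lt_floor_add_one y
  have hS3 : S ^ 3 ≤ q := by
    have : (S : ℝ) ^ 3 ≤ q := by rw [← hy3]; gcongr
    exact_mod_cast this
  have hSge : 2 * s₀ + 9 ≤ S := by
    have : (2 * s₀ + 9 : ℝ) < S + 0 ∨ True := Or.inr trivial
    have h1 : ((2 * s₀ + 9 : ℕ) : ℝ) < S := by push_cast; linarith
    exact (by exact_mod_cast h1.le)
  have hSpos : (0 : ℝ) < S := by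
    have : 0 < S := by omega
    exact_mod_cast this
  have hS1 : (1 : ℝ) < S := by
    have : 1 < S := by omega
    exact_mod_cast this
  have hlogS : 0 < log S := Real.log_pos hS1
  -- bound each
  have hterm : ∀ s ∈ Finset.Ioc (S / 2) S, (S : ℝ) / (8 * log S) ≤ ((Bs q s).card : ℝ) := by
    intro s hs
    rw [Finset.mem_Ioc] at hs
    obtain ⟨hs1, hs2⟩ := hs
    have hs0 : s₀ ≤ s := by omega
    have hss : s * s ≤ q := by
      have h1 : s ^ 3 ≤ q := le_trans (Nat.pow_le_pow_left hs2 3) hS3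
      have h2 : s * s * 1 ≤ s * s * s := Nat.mul_le_mul_left _ (by omega)
      have h3 : s ^ 3 = s * s * s := by ring
      omega
    have h1 := hs₀ s hs0
    have h2 := card_Us_le hprime hss
    have h2' : ((Us s).card : ℝ) ≤ 2 * (Bs q s).card := by exact_mod_cast h2
    have hs1r : (1 : ℝ) < s := by
      have : 1 < s := by omega
      exact_mod_cast this
    have hlogs : 0 < log s := Real.log_pos hs1r
    have hlogle : log s ≤ log S := by
      apply Real.log_le_log (by linarith)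
      exact_mod_cast hs2
    have hS2 : (S : ℝ) ≤ 2 * s := by
      have : S ≤ 2 * s := by omega
      exact_mod_cast this
    have h3 : (S : ℝ) / (8 * log S) ≤ (s : ℝ) / (2 * log s) / 2 := by
      rw [div_div, div_le_div_iff₀ (by positivity) (by positivity)]
      have e1 : (S : ℝ) * (2 * log s * 2) ≤ (2 * s) * (2 * log S * 2) := by gcongr
      linarith
    linarith
  have hsum : ((S : ℝ) / 2) * (S / (8 * log S)) ≤ (Bset q).card := by
    have h1 := sum_Bs_le (q := q) (S := S) (T := S / 2) hS3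
    have h1' : ∑ s ∈ Finset.Ioc (S / 2) S, ((Bs q s).card : ℝ) ≤ (Bset q).card := by
      exact_mod_cast h1
    have h2 := Finset.sum_le_sum hterm
    rw [Finset.sum_const, Nat.card_Ioc, nsmul_eq_mul] at h2
    have h3 : (S : ℝ) / 2 ≤ ((S - S / 2 : ℕ) : ℝ) := by
      have h4 : S ≤ 2 * (S - S / 2) := by omega
      have h5 : (S : ℝ) ≤ 2 * ((S - S / 2 : ℕ) : ℝ) := by exact_mod_cast h4
      linarith
    have h4 : ((S : ℝ) / 2) * (S / (8 * log S)) ≤ ((S - S / 2 : ℕ) : ℝ) * (S / (8 * log S)) := by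
      gcongr
    linarith
  have hlogy : log S ≤ log q / 3 := by
    have h1 : log S ≤ log y := Real.log_le_log hSpos hSy
    have h2 : log q = 3 * log y := by
      rw [← hy3, Real.log_pow]; push_cast; ring
    linarith
  have hlogq : 0 < log q := by linarith
  have hSy9 : 9 / 10 * y ≤ S := by
    have : (10 : ℝ) ≤ y := by
      have : (0 : ℝ) ≤ s₀ := by positivity
      linarith
    linarith
  rw [hy2]
  refine le_trans ?_ hsum
  have e1 : (9 / 10 * y / 2) * ((9 / 10 * y) / (8 * (log q / 3))) ≤ ((S : ℝ) / 2) * (S / (8 * log S)) := by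
    gcongr
  refine le_trans ?_ e1
  have e2 : (9 / 10 * y / 2) * ((9 / 10 * y) / (8 * (log q / 3))) = (243 / 1600) * (y ^ 2 / log q) := by
    field_simp
    ring
  rw [e2]
  have : 0 ≤ y ^ 2 / log q := by positivity
  nlinarith

end H182R2.LInd
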